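import Pool.Agent.H72.BiregJ

set_option autoImplicit false

/-!
# Biregular graphs with three eigenvalues and bounded smallest eigenvalue

For every real `lam > 0` there are only finitely many connected graphs (on the vertex sets `Fin n`,
`n` arbitrary, hence a fortiori up to isomorphism) whose vertex degrees take exactly two values,
whose adjacency matrix has exactly three distinct eigenvalues, and all of whose eigenvalues are at
least `-lam`.
-/

namespace Pool.Agent.Results.MP_b296a0_co.FiniteBiregular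

open Pool.Agent.H72.Bireg

/-- The order of the graphs in the class is bounded. -/
theorem order_bound (lam : ℝ) : ∃ N : ℕ, ∀ (V : Type) [Fintype V] [DecidableEq V]
    (G : SimpleGraph V) [DecidableRel G.Adj], G.Connected →
      (Set.range fun v => G.degree v).ncard = 2 →
      (spectrum ℝ (G.adjMatrix ℝ)).ncard = 3 →
      (∀ μ ∈ spectrum ℝ (G.adjMatrix ℝ), -lam ≤ μ) → Fintype.card V ≤ N := by
  obtain ⟨T0, hT0⟩ := exists_nat_ge lam
  obtain ⟨N, hN⟩ := bounded_order (T0 + 1) (by omega)
  refine ⟨N, ?_⟩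
  intro V _ _ G _ hc hdeg hspec hmin
  -- the degrees
  obtain ⟨d1, d2, hd12, hd⟩ := Set.ncard_eq_two.mp hdeg
  obtain ⟨k1, k2, hk, hk12⟩ : ∃ k1 k2 : ℕ, k2 < k1 ∧ (Set.range fun v => G.degree v) = {k1, k2} := by
    rcases lt_or_gt_of_ne hd12 with h | h
    · exact ⟨d2, d1, h, by rw [hd, Set.pair_comm]⟩
    · exact ⟨d1, d2, h, hd⟩
  have hdeg' : ∀ x, G.degree x = k1 ∨ G.degree x = k2 := by
    intro x
    have : G.degree x ∈ (Set.range fun v => G.degree v) := ⟨x, rfl⟩
    rw [hk12] at this
    simpa using this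
  have h1 : ∃ x, G.degree x = k1 := by
    have : k1 ∈ (Set.range fun v => G.degree v) := by rw [hk12]; simp
    exact this
  have h2 : ∃ x, G.degree x = k2 := by
    have : k2 ∈ (Set.range fun v => G.degree v) := by rw [hk12]; simp
    exact this
  -- the eigenvalues
  obtain ⟨x, y, z, hxy, hxz, hyz, hS⟩ := Set.ncard_eq_three.mp hspec
  obtain ⟨θ, s, r, hs, hr, hS'⟩ : ∃ θ s r : ℝ, s < θ ∧ r < s ∧ spectrum ℝ (G.adjMatrix ℝ) = {θ, s, r} := by
    rcases lt_or_gt_of_ne hxy with h1 | h1 <;> rcases lt_or_gt_of_ne hxz with h2 | h2 <;>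
      rcases lt_or_gt_of_ne hyz with h3 | h3
    · exact ⟨z, y, x, h3, h1, by rw [hS]; ext w; simp only [Set.mem_insert_iff, Set.mem_singleton_iff]; tauto⟩
    · exact ⟨y, z, x, h3, h2, by rw [hS]; ext w; simp only [Set.mem_insert_iff, Set.mem_singleton_iff]; tauto⟩
    · exact absurd (h1.trans h3) (not_lt.mpr h2.le)
    · exact ⟨y, x, z, h1, h2, by rw [hS]; ext w; simp only [Set.mem_insert_iff, Set.mem_singleton_iff]; tauto⟩
    · exact ⟨z, x, y, h2, h1, by rw [hS]; ext w; simp only [Set.mem_insert_iff, Set.mem_singleton_iff]; tauto⟩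
    · exact absurd (h1.trans h2) (not_lt.mpr h3.le)
    · exact ⟨x, z, y, h2, h3, by rw [hS]; ext w; simp only [Set.mem_insert_iff, Set.mem_singleton_iff]; tauto⟩
    · exact ⟨x, y, z, h1, h3, by rw [hS]⟩
  obtain ⟨a, ha⟩ := dat_of_graph hc hk hdeg' h1 h2 hS' hs hr
  refine hN V G s (-r) θ a k1 k2 ha ?_
  have := hmin r (by rw [hS']; simp)
  push_cast
  linarith

open scoped Classical in
/-- **Finiteness of the class `B(lam)`.** For every real `lam > 0`, the set of all pairs `(n, G)`
with `G` a connected simple graph on `Fin n` whose degrees take exactly two distinct values, whose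
adjacency matrix has exactly three distinct real eigenvalues, all of them at least `-lam`, is
finite. -/
theorem result (lam : ℝ) (_hlam : 0 < lam) :
    {p : Σ n : ℕ, SimpleGraph (Fin n) |
      p.2.Connected ∧
      (Set.range fun v => p.2.degree v).ncard = 2 ∧
      (spectrum ℝ (p.2.adjMatrix ℝ)).ncard = 3 ∧
      ∀ μ ∈ spectrum ℝ (p.2.adjMatrix ℝ), -lam ≤ μ}.Finite := by
  obtain ⟨N, hN⟩ := order_bound lam
  have hfin : (Set.range (fun q : Σ n : Fin (N + 1), SimpleGraph (Fin n) =>
      (⟨q.1, q.2⟩ : Σ n : ℕ, SimpleGraph (Fin n)))).Finite := Set.finite_range _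
  apply hfin.subset
  rintro ⟨n, G⟩ ⟨h1, h2, h3, h4⟩
  have h5 : n ≤ N := by
    have := hN (Fin n) G h1 h2 h3 h4
    simpa using this
  exact ⟨⟨⟨n, by omega⟩, G⟩, rfl⟩

end Pool.Agent.Results.MP_b296a0_co.FiniteBiregular
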